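import Pool.Agent.helper66.SL.SpecK

set_option autoImplicit false

namespace Pool.Agent.helper66.SL

open Pool.Agent.helper52.FC

theorem KCP_fl_ne {E : Type} {L : Set (E → SignType)} (hL : Good L) {T : E → SignType} (hT : IsTope L T) (e : E) :
    fl T e ≠ T := by
  intro h
  have h1 := congrFun h e
  rw [fl_same] at h1
  exact tope_supp hL.om hL.simple hT e (sneg h1.symm rfl)

theorem KCP_proof (hKTC : KTC) (hKF1 : KF1) (hKF2 : KF2) (hKF3 : KF3) : KCP := by
  classical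
  intro E _ L r P φ hS l hl
  obtain ⟨_, hface⟩ := hKF3 E L r P φ hS
  have hP : ∀ T, IsTope L T → vp φ T ∈ P := by
    intro T hT
    obtain ⟨F, hF, hTF, _⟩ := hKF1 E L r P φ hS T hT ∅ (by simp)
    exact hF.1.subset hTF
  set A : (E → SignType) → Set E := fun T => {e | Wall L T e ∧ l (vp φ T) < l (vp φ (fl T e))} with hA
  set Q : Set ((E → SignType) × Set E) := {q | IsTope L q.1 ∧ q.2 ⊆ A q.1} with hQ
  have hex : ∀ q ∈ Q, ∃ F : Set (EuclideanSpace ℝ (Fin r)), F ∈ Fc P ∧ vp φ q.1 ∈ F ∧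
      ∀ e, Wall L q.1 e → (vp φ (fl q.1 e) ∈ F ↔ e ∈ q.2) := by
    rintro ⟨T, K⟩ ⟨hT, hK⟩
    obtain ⟨F, hF, h1, h2⟩ := hKF1 E L r P φ hS T hT K (fun e he => (hK he).1)
    exact ⟨F, hF, h1, h2⟩
  choose! g hg1 hg2 hg3 using hex
  have hmin : ∀ q ∈ Q, ∀ S, IsTope L S → vp φ S ∈ g q → l (vp φ q.1) ≤ l (vp φ S) := by
    intro q hq S hSt hSF
    have hT : IsTope L q.1 := hq.1
    have hK : q.2 ⊆ A q.1 := hq.2
    obtain ⟨l', hl'⟩ := (hg1 q hq).1 (hg1 q hq).2
    have hmem := Set.ext_iff.1 hl'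
    obtain ⟨hxP, hxm⟩ := (hmem (vp φ S)).1 hSF
    obtain ⟨hTP, hTm⟩ := (hmem (vp φ q.1)).1 (hg2 q hq)
    obtain ⟨c, hc0, hcw, hsum⟩ := hKTC E L r P φ hS q.1 hT (vp φ S) hxP
    have hxT : l' (vp φ S) = l' (vp φ q.1) := le_antisymm (hTm _ hxP) (hxm _ hTP)
    have hzero : ∑ e, c e * l' (vp φ (fl q.1 e) - vp φ q.1) = 0 := by
      have h1 := congrArg l' hsum
      rw [map_sub, hxT, sub_self, map_sum] at h1
      rw [h1]
      refine Finset.sum_congr rfl fun e _ => ?_
      rw [map_smul, smul_eq_mul]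
    have hterm : ∀ e ∈ (Finset.univ : Finset E), c e * l' (vp φ (fl q.1 e) - vp φ q.1) ≤ 0 := by
      intro e _
      by_cases hw : Wall L q.1 e
      · have h1 := hTm (vp φ (fl q.1 e)) (hP _ hw)
        have h2 : l' (vp φ (fl q.1 e) - vp φ q.1) ≤ 0 := by
          rw [map_sub]
          linarith
        exact mul_nonpos_of_nonneg_of_nonpos (hc0 e) h2
      · rw [hcw e hw, zero_mul]
    have hall := (Finset.sum_eq_zero_iff_of_nonpos hterm).1 hzero
    have hc : ∀ e, e ∉ q.2 → c e = 0 := by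
      intro e he
      by_cases hw : Wall L q.1 e
      · have h1 : vp φ (fl q.1 e) ∉ g q := fun h => he ((hg3 q hq e hw).1 h)
        rcases mul_eq_zero.1 (hall e (Finset.mem_univ e)) with h2 | h2
        · exact h2
        · exfalso
          apply h1
          rw [map_sub] at h2
          refine (hmem _).2 ⟨hP _ hw, fun y hy => ?_⟩
          have h3 := hTm y hy
          linarith
      · exact hcw e hw
    have hl1 := congrArg l hsum
    rw [map_sub, map_sum] at hl1
    have hnn : 0 ≤ ∑ e, l (c e • (vp φ (fl q.1 e) - vp φ q.1)) := by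
      refine Finset.sum_nonneg fun e _ => ?_
      rw [map_smul, smul_eq_mul]
      by_cases he : e ∈ q.2
      · have h1 := (hK he).2
        rw [map_sub]
        exact mul_nonneg (hc0 e) (by linarith)
      · rw [hc e he, zero_mul]
    linarith
  have hinjOn : Set.InjOn g Q := by
    intro q hq q' hq' hqq
    have h1 : l (vp φ q.1) ≤ l (vp φ q'.1) := hmin q hq q'.1 hq'.1 (hqq ▸ hg2 q' hq')
    have h2 : l (vp φ q'.1) ≤ l (vp φ q.1) := hmin q' hq' q.1 hq.1 (hqq ▸ hg2 q hq)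
    have h3 : q.1 = q'.1 := hl _ _ hq.1 hq'.1 (le_antisymm h1 h2)
    refine Prod.ext h3 (Set.ext fun e => ?_)
    constructor
    · intro he
      have hw : Wall L q.1 e := (hq.2 he).1
      have h4 := (hg3 q hq e hw).2 he
      rw [hqq, h3] at h4
      rw [h3] at hw
      exact (hg3 q' hq' e hw).1 h4
    · intro he
      have hw : Wall L q'.1 e := (hq'.2 he).1
      have h4 := (hg3 q' hq' e hw).2 he
      rw [← hqq, ← h3] at h4
      rw [← h3] at hw
      exact (hg3 q hq e hw).1 h4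
  have himg : Fc P = g '' Q := by
    apply Set.Subset.antisymm
    · intro F hF
      obtain ⟨T0, hT0, hT0F⟩ := (hface F hF).1
      obtain ⟨T, ⟨hT, hTF⟩, hTmin⟩ := Set.exists_min_image {T : E → SignType | IsTope L T ∧ vp φ T ∈ F}
        (fun T => l (vp φ T)) (Set.toFinite _) ⟨T0, hT0, hT0F⟩
      have hKA : {e | Wall L T e ∧ vp φ (fl T e) ∈ F} ⊆ A T := by
        rintro e ⟨hw, heF⟩
        refine ⟨hw, lt_of_le_of_ne (hTmin (fl T e) ⟨hw, heF⟩) ?_⟩
        intro h
        exact KCP_fl_ne hS.good hT e (hl _ _ hT hw h).symm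
      have hq : (T, {e | Wall L T e ∧ vp φ (fl T e) ∈ F}) ∈ Q := ⟨hT, hKA⟩
      refine ⟨_, hq, ?_⟩
      apply Set.Subset.antisymm
      · refine hKF2 E L r P φ hS T hT _ (hg1 _ hq) F hF (hg2 _ hq) hTF ?_
        intro e hw he
        exact ((hg3 _ hq e hw).1 he).2
      · refine hKF2 E L r P φ hS T hT F hF _ (hg1 _ hq) hTF (hg2 _ hq) ?_
        intro e hw he
        exact (hg3 _ hq e hw).2 ⟨hw, he⟩
    · rintro F ⟨q, hq, rfl⟩
      exact hg1 q hq
  have hQfin : Q.Finite := Set.toFinite Q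
  refine ⟨?_, ?_⟩
  · rw [himg]
    exact hQfin.image g
  · rw [himg, hinjOn.ncard_image]
    exact pairs_ncard L A

end Pool.Agent.helper66.SL
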